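import Pool.Agent.Q109.Helly.C

/-!
# The Helly dimension of a diagonalizable group is at most `1 + rk X(G)`

Closed subgroups `Hᵢ` of `G` are cut out by groups `Xᵢ` of characters, and closed cosets `gᵢHᵢ` have
a common point if and only if the homomorphisms `χ ↦ χ(gᵢ)` on the `Xᵢ` are compatible, i.e. respect
all relations `∏ χᵢ = 1`, `χᵢ ∈ Xᵢ`. These relations are generated by those which involve at most
`1 + rk X(G)` of the `Xᵢ`, as one sees locally at every prime with the lemma of Nakayama.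
-/

set_option autoImplicit false

universe u

namespace Pool.Agent.Results.MP_baf67b_al.HellyUpperBound

open Pool.Agent.Q109.Helly

section defs

variable {K : Type u} [Field K] {N : ℕ}

/-- The Helly dimension `κ(G)`: the least positive `d` with the Helly property. -/
noncomputable def hellyDim (G : Subgroup (Fin N → Kˣ)) : ℕ :=
  sInf {d : ℕ | 0 < d ∧ HellyProperty G d}

/-- `χ` is a homomorphism. -/
def IsMultiplicative (G : Subgroup (Fin N → Kˣ)) (χ : G → Kˣ) : Prop :=
  ∀ x y, χ (x * y) = χ x * χ y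

/-- `χ` is a morphism of varieties: it has the form `x ↦ f(x) / (x₁ ⋯ x_N)^k` with a polynomial
`f`. -/
def IsRegularMap (G : Subgroup (Fin N → Kˣ)) (χ : G → Kˣ) : Prop :=
  ∃ (f : MvPolynomial (Fin N) K) (k : ℕ), ∀ x : G,
    (χ x : K) * (∏ i, (x.1 i : K)) ^ k = MvPolynomial.eval (fun i => (x.1 i : K)) f

/-- `χ` is a character, i.e. an element of `X(G)`. -/
def IsCharacter (G : Subgroup (Fin N → Kˣ)) (χ : G → Kˣ) : Prop :=
  IsMultiplicative G χ ∧ IsRegularMap G χ

/-- The group `X(G)` is generated by `r` elements. -/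
def GeneratedBy (G : Subgroup (Fin N → Kˣ)) (r : ℕ) : Prop :=
  ∃ χ : Fin r → G → Kˣ, (∀ i, IsCharacter G (χ i)) ∧
    ∀ θ, IsCharacter G θ → ∃ n : Fin r → ℤ, ∀ x, θ x = ∏ i, χ i x ^ n i

/-- The minimal number `rk X(G)` of generators of `X(G)`. -/
noncomputable def rkX (G : Subgroup (Fin N → Kˣ)) : ℕ := sInf {r : ℕ | GeneratedBy G r}

end defs

section proofs

variable {K : Type u} [Field K] {N : ℕ}

lemma generatedBy (G : Subgroup (Fin N → Kˣ)) : GeneratedBy G N := by
  refine ⟨fun i x => x.1 i, fun i => ⟨fun x y => rfl, MvPolynomial.X i, 0, fun x => by simp⟩, ?_⟩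
  rintro θ ⟨hm, hr⟩
  let θ' : G →* Kˣ := MonoidHom.mk' θ hm
  obtain ⟨a, ha⟩ := (regular_iff G θ').1 hr
  exact ⟨a, fun x => ha x⟩

lemma span_of_generatedBy (G : Subgroup (Fin N → Kˣ)) {r : ℕ} (h : GeneratedBy G r) :
    ∃ v : Fin r → Ch G, sub G (characterGroup G) = Submodule.span ℤ (Set.range v) := by
  obtain ⟨χ, hχ, hgen⟩ := h
  refine ⟨fun i => toCh G (MonoidHom.mk' (χ i) (hχ i).1), ?_⟩
  apply le_antisymm
  · intro θ hθ
    obtain ⟨n, hn⟩ := hgen (ofCh G θ) ⟨fun x y => map_mul _ _ _, (mem_sub _ _ _).1 hθ⟩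
    have h1 : θ = ∑ i, n i • toCh G (MonoidHom.mk' (χ i) (hχ i).1) := by
      have h2 : ∀ (s : Finset (Fin r)) (x : G),
          ofCh G (∑ i ∈ s, n i • toCh G (MonoidHom.mk' (χ i) (hχ i).1)) x =
            ∏ i ∈ s, χ i x ^ n i := by
        classical
        intro s x
        induction s using Finset.induction_on with
        | empty => rfl
        | insert i s hi ih =>
          rw [Finset.sum_insert hi, Finset.prod_insert hi, ← ih]
          rfl
      have h3 : ofCh G θ = ofCh G (∑ i, n i • toCh G (MonoidHom.mk' (χ i) (hχ i).1)) := by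
        ext x
        rw [hn x, h2]
      exact h3
    rw [h1]
    exact Submodule.sum_mem _ fun i _ => Submodule.smul_mem _ _ (Submodule.subset_span ⟨i, rfl⟩)
  · rw [Submodule.span_le]
    rintro _ ⟨i, rfl⟩
    exact (hχ i).2

end proofs

/-- For every Zariski closed subgroup `G` of a diagonal group `(Kˣ)^N` over an algebraically closed
field `K` one has `κ(G) ≤ 1 + rk X(G)`. (Moreover the minima defining `κ(G)` and `rk X(G)` are
attained.) -/
theorem result (K : Type u) [Field K] [IsAlgClosed K] (N : ℕ) (G : Subgroup (Fin N → Kˣ))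
    (_hG : IsZariskiClosed (G : Set (Fin N → Kˣ))) :
    hellyDim G ≤ 1 + rkX G ∧ (0 < hellyDim G ∧ HellyProperty G (hellyDim G)) ∧
      GeneratedBy G (rkX G) := by
  have h0 : GeneratedBy G (rkX G) := Nat.sInf_mem (s := {r : ℕ | GeneratedBy G r}) ⟨N, generatedBy G⟩
  obtain ⟨v, hv⟩ := span_of_generatedBy G h0
  have h : 1 + rkX G ∈ {d : ℕ | 0 < d ∧ HellyProperty G d} := ⟨by omega, hellyProperty G v hv⟩
  exact ⟨Nat.sInf_le h, Nat.sInf_mem ⟨_, h⟩, h0⟩

end Pool.Agent.Results.MP_baf67b_al.HellyUpperBound
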